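import Pool.Agent.Lib.MP_8d5739_co.Data

/-!
The mod 2 cocycle counting four pairwise disjoint pairs.
-/

namespace Pool.Agent.Lib.MP_8d5739_co

open Finset

/-- The codes of the pairs contained in a block of the partition. -/
def codes (x : BPart 9 3) : Set ℕ := {c | c < 81 ∧ e1 c < e2 c ∧ e2 c ∈ x.1.part (e1 c)}

theorem part_symm {n : ℕ} (p : Finpartition (univ : Finset (Fin n))) {i j : Fin n}
    (h : j ∈ p.part i) : p.part j = p.part i :=
  p.part_eq_of_mem (p.part_mem.2 (mem_univ i)) h

theorem codes_nonempty (x : BPart 9 3) : (codes x).Nonempty := by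
  have hx : ¬ ∀ i, x.1.part i ⊆ (⊥ : Finpartition (univ : Finset (Fin 9))).part i := by
    rw [← le_iff_part]
    intro h
    exact x.2.1 (le_bot_iff.1 h)
  simp only [part_bot, subset_singleton_iff', not_forall] at hx
  obtain ⟨i, j, hj, hne⟩ := hx
  have hi : i ∈ x.1.part j := by
    rw [part_symm x.1 hj]; exact x.1.mem_part (mem_univ i)
  have key : ∀ a b : Fin 9, a < b → b ∈ x.1.part a → (codes x).Nonempty := by
    intro a b hab hb
    refine ⟨9 * a.1 + b.1, ?_, ?_, ?_⟩
    · have := a.2; have := b.2; omega
    · have h1 : e1 (9 * a.1 + b.1) = a := by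
        apply Fin.ext
        have := a.2; have := b.2
        simp only [e1]; omega
      have h2 : e2 (9 * a.1 + b.1) = b := by
        apply Fin.ext
        have := a.2; have := b.2
        simp only [e2]; omega
      rw [h1, h2]; exact hab
    · have h1 : e1 (9 * a.1 + b.1) = a := by
        apply Fin.ext
        have := a.2; have := b.2
        simp only [e1]; omega
      have h2 : e2 (9 * a.1 + b.1) = b := by
        apply Fin.ext
        have := a.2; have := b.2
        simp only [e2]; omega
      rw [h1, h2]; exact hb
  rcases lt_or_gt_of_ne hne with h | h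
  · exact key j i h hi
  · exact key i j h hj

/-- The chosen atom below an element of the poset: the smallest code. -/
noncomputable def ac (x : BPart 9 3) : ℕ := sInf (codes x)

theorem ac_mem (x : BPart 9 3) : ac x ∈ codes x := Nat.sInf_mem (codes_nonempty x)

/-- Two coded pairs are disjoint. -/
def Dj (c d : ℕ) : Prop := e1 c ≠ e1 d ∧ e1 c ≠ e2 d ∧ e2 c ≠ e1 d ∧ e2 c ≠ e2 d

instance (c d : ℕ) : Decidable (Dj c d) := by unfold Dj; infer_instance

/-- The chosen atoms of a chain are pairwise disjoint. -/
def AllDj {m : ℕ} (s : Fin m ↪o BPart 9 3) : Prop :=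
  ∀ i j, i ≠ j → Dj (ac (s i)) (ac (s j))

open Classical in
/-- The cochain. -/
noncomputable def Phi (m : ℕ) : ChF (BPart 9 3) m →ₗ[ℤ] ZMod 2 :=
  Finsupp.linearCombination ℤ (fun s : Fin m ↪o BPart 9 3 => if AllDj s then (1 : ZMod 2) else 0)

open Classical in
theorem Phi_single {m : ℕ} (s : Fin m ↪o BPart 9 3) :
    Phi m (Finsupp.single s 1) = if AllDj s then (1 : ZMod 2) else 0 := by
  unfold Phi
  rw [Finsupp.linearCombination_single, one_smul]

theorem ac_mem_part_of_le {x y : BPart 9 3} (h : x ≤ y) :
    e2 (ac x) ∈ y.1.part (e1 (ac x)) :=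
  (le_iff_part _ _).1 h _ (ac_mem x).2.2

/-- Pairs below a common element are disjoint if and only if they lie in different blocks. -/
theorem dj_iff {x x' y : BPart 9 3} (h : x ≤ y) (h' : x' ≤ y) :
    Dj (ac x) (ac x') ↔ y.1.part (e1 (ac x)) ≠ y.1.part (e1 (ac x')) := by
  have m1 := ac_mem_part_of_le h
  have m2 := ac_mem_part_of_le h'
  have m3 := y.1.mem_part (mem_univ (e1 (ac x)))
  have m4 := y.1.mem_part (mem_univ (e1 (ac x')))
  constructor
  · intro hd he
    rw [← he] at m2 m4
    have hcard := y.2.2 _ (y.1.part_mem.2 (mem_univ (e1 (ac x))))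
    have hsub : ({e1 (ac x), e2 (ac x), e1 (ac x'), e2 (ac x')} : Finset (Fin 9)) ⊆
        y.1.part (e1 (ac x)) := by
      intro a ha
      simp only [mem_insert, mem_singleton] at ha
      rcases ha with rfl | rfl | rfl | rfl
      · exact m3
      · exact m1
      · exact m4
      · exact m2
    have h4 : ({e1 (ac x), e2 (ac x), e1 (ac x'), e2 (ac x')} : Finset (Fin 9)).card = 4 := by
      have n1 := (ac_mem x).2.1.ne
      have n2 := (ac_mem x').2.1.ne
      obtain ⟨d1, d2, d3, d4⟩ := hd
      rw [card_insert_of_notMem, card_insert_of_notMem, card_insert_of_notMem, card_singleton]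
      · simpa using n2
      · simp only [mem_insert, mem_singleton, not_or]; exact ⟨d3, d4⟩
      · simp only [mem_insert, mem_singleton, not_or]; exact ⟨n1, d1, d2⟩
    have := card_le_card hsub
    omega
  · intro hne
    refine ⟨fun he => hne ?_, fun he => hne ?_, fun he => hne ?_, fun he => hne ?_⟩
    · rw [he]
    · rw [he]; exact part_symm y.1 m2
    · rw [← he]; exact (part_symm y.1 m1).symm
    · rw [← part_symm y.1 m1, ← part_symm y.1 m2, he]

theorem injective_comp_succAbove {T : Type} (f : Fin 5 → T) (k : Fin 5) :
    Function.Injective (f ∘ k.succAbove) ↔ Set.InjOn f {k}ᶜ := by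
  rw [← Fin.range_succAbove k]
  constructor
  · rintro h _ ⟨a, rfl⟩ _ ⟨b, rfl⟩ hab
    rw [h hab]
  · intro h a b hab
    exact Fin.succAbove_right_injective (h ⟨a, rfl⟩ ⟨b, rfl⟩ hab)

theorem injOn_swap {T : Type} (f : Fin 5 → T) (a b : Fin 5) (hab : a ≠ b) (hf : f a = f b)
    (h : Set.InjOn f {a}ᶜ) : Set.InjOn f {b}ᶜ := by
  intro x hx y hy hxy
  simp only [Set.mem_compl_iff, Set.mem_singleton_iff] at hx hy
  by_cases hxa : x = a <;> by_cases hya : y = a
  · rw [hxa, hya]
  · exfalso
    apply hy
    have := h (x₁ := b) (by simpa using hab.symm) (x₂ := y) (by simpa using hya)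
      (by rw [← hf, ← hxa, hxy])
    exact this.symm
  · exfalso
    apply hx
    exact h (x₁ := x) (by simpa using hxa) (x₂ := b) (by simpa using hab.symm)
      (by rw [← hf, ← hya, hxy])
  · exact h (by simpa using hxa) (by simpa using hya) hxy

theorem parity {T : Type} (f : Fin 5 → T) (hf : ¬ Function.Injective f)
    [∀ k : Fin 5, Decidable (Function.Injective (f ∘ k.succAbove))] :
    ∑ k : Fin 5, (if Function.Injective (f ∘ k.succAbove) then (1 : ZMod 2) else 0) = 0 := by
  simp only [Function.Injective, not_forall] at hf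
  obtain ⟨a, b, hab, hne⟩ := hf
  have hsub : ∑ k : Fin 5, (if Function.Injective (f ∘ k.succAbove) then (1 : ZMod 2) else 0) =
      ∑ k ∈ ({a, b} : Finset (Fin 5)),
        (if Function.Injective (f ∘ k.succAbove) then (1 : ZMod 2) else 0) := by
    symm
    apply sum_subset (subset_univ _)
    intro k _ hk
    simp only [mem_insert, mem_singleton, not_or] at hk
    rw [if_neg]
    rw [injective_comp_succAbove]
    intro h
    exact hne (h (by simpa using Ne.symm hk.1) (by simpa using Ne.symm hk.2) hab)
  rw [hsub, sum_pair hne]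
  have hiff : Function.Injective (f ∘ a.succAbove) ↔ Function.Injective (f ∘ b.succAbove) := by
    rw [injective_comp_succAbove, injective_comp_succAbove]
    exact ⟨injOn_swap f a b hne hab, injOn_swap f b a (Ne.symm hne) hab.symm⟩
  simp only [hiff]
  exact CharTwo.add_self_eq_zero _

/-- The cochain is a cocycle. -/
theorem Phi_bdF (c : ChF (BPart 9 3) 5) : Phi 4 (bdF (BPart 9 3) 4 c) = 0 := by
  classical
  induction c using Finsupp.induction_linear with
  | zero => simp
  | add f g hf hg => rw [map_add, map_add, hf, hg, add_zero]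
  | single t c =>
    have hc : (Finsupp.single t c : ChF (BPart 9 3) 5) = c • Finsupp.single t 1 := by simp
    rw [hc, map_smul, map_smul, bdF_single, map_sum]
    set y := t (Fin.last 4) with hy
    set f : Fin 5 → Finset (Fin 9) := fun i => y.1.part (e1 (ac (t i))) with hfdef
    have hle : ∀ i, t i ≤ y := fun i => t.monotone (Fin.le_last i)
    have hninj : ¬ Function.Injective f := by
      intro hinj
      have h1 : (univ.image f).card = 5 := by
        rw [card_image_of_injective _ hinj]; simp
      have h2 : univ.image f ⊆ y.1.parts := by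
        intro B hB
        rw [mem_image] at hB
        obtain ⟨i, _, rfl⟩ := hB
        exact y.1.part_mem.2 (mem_univ _)
      have h3 : ∑ B ∈ univ.image f, B.card ≤ ∑ B ∈ y.1.parts, B.card :=
        sum_le_sum_of_subset h2
      rw [y.1.sum_card_parts] at h3
      have h4 : ∑ B ∈ univ.image f, 2 ≤ ∑ B ∈ univ.image f, B.card := by
        apply sum_le_sum
        intro B hB
        rw [mem_image] at hB
        obtain ⟨i, _, rfl⟩ := hB
        have hsub : ({e1 (ac (t i)), e2 (ac (t i))} : Finset (Fin 9)) ⊆ f i := by
          intro a ha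
          simp only [mem_insert, mem_singleton] at ha
          rcases ha with rfl | rfl
          · exact y.1.mem_part (mem_univ _)
          · exact ac_mem_part_of_le (hle i)
        have hcard := card_le_card hsub
        rw [card_pair (ac_mem (t i)).2.1.ne] at hcard
        exact hcard
      rw [sum_const, h1, smul_eq_mul] at h4
      have h5 : (univ : Finset (Fin 9)).card = 9 := by simp
      omega
    have hterm : ∀ k : Fin 5, Phi 4 ((-1 : ℤ) ^ (k : ℕ) • Finsupp.single (face k t) 1) =
        if Function.Injective (f ∘ k.succAbove) then (1 : ZMod 2) else 0 := by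
      intro k
      rw [map_smul, Phi_single]
      have hiff : AllDj (face k t) ↔ Function.Injective (f ∘ k.succAbove) := by
        unfold AllDj
        constructor
        · intro h i j hij
          by_contra hne
          have := (dj_iff (hle _) (hle _)).1 (h i j hne)
          exact this hij
        · intro h i j hne
          rw [face_apply, face_apply]
          refine (dj_iff (hle _) (hle _)).2 fun he => hne (h he)
      simp only [hiff]
      have hz : ∀ a : ZMod 2, (-1 : ℤ) ^ (k : ℕ) • a = a := by
        intro a
        rcases neg_one_pow_eq_or ℤ (k : ℕ) with h | h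
        · rw [h, one_smul]
        · rw [h, neg_smul, one_smul, CharTwo.neg_eq]
      exact hz _
    rw [sum_congr rfl (fun k _ => hterm k), parity f hninj, smul_zero]

end Pool.Agent.Lib.MP_8d5739_co
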