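import Pool.Agent.Lib.MP_8d5739_co.Internal

/-!
The cone operator on chains of a poset and its behaviour under the bdF.
-/

namespace Pool.Agent.Lib.MP_8d5739_co

variable {P : Type} [PartialOrder P]

/-- The face of a chain opposite to the `j`-th element. -/
def face {m : ℕ} (j : Fin (m + 1)) (s : Fin (m + 1) ↪o P) : Fin m ↪o P :=
  (Fin.succAboveOrderEmb j).trans s

theorem face_apply {m : ℕ} (j : Fin (m + 1)) (s : Fin (m + 1) ↪o P) (i : Fin m) :
    face j s i = s (j.succAbove i) := rfl

theorem bdF_single {m : ℕ} (s : Fin (m + 1) ↪o P) (c : ℤ) :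
    bdF P m (Finsupp.single s c) =
      ∑ j : Fin (m + 1), (-1 : ℤ) ^ (j : ℕ) • Finsupp.single (face j s) c := by
  simp [bdF, LinearMap.sum_apply, LinearMap.smul_apply, Finsupp.lmapDomain_apply,
    Finsupp.mapDomain_single, face]

theorem snoc_strictMono {m : ℕ} (s : Fin m ↪o P) (b : P) (h : ∀ i, s i < b) :
    StrictMono (Fin.snoc (α := fun _ => P) s b) := by
  intro i j hij
  induction j using Fin.lastCases with
  | last =>
    induction i using Fin.lastCases with
    | last => exact absurd hij (lt_irrefl _)
    | cast i => simpa using h i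
  | cast j =>
    induction i using Fin.lastCases with
    | last => exact absurd hij (not_lt.2 (Fin.le_last _))
    | cast i =>
      have : i < j := by simpa using hij
      simpa using this

/-- Append a larger element to a chain. -/
def snocE {m : ℕ} (s : Fin m ↪o P) (b : P) (h : ∀ i, s i < b) : Fin (m + 1) ↪o P :=
  OrderEmbedding.ofStrictMono (Fin.snoc (α := fun _ => P) s b) (snoc_strictMono s b h)

theorem snocE_last {m : ℕ} (s : Fin m ↪o P) (b : P) (h : ∀ i, s i < b) :
    snocE s b h (Fin.last m) = b := by
  unfold snocE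
  rw [OrderEmbedding.coe_ofStrictMono, Fin.snoc_last]

theorem snocE_castSucc {m : ℕ} (s : Fin m ↪o P) (b : P) (h : ∀ i, s i < b) (i : Fin m) :
    snocE s b h i.castSucc = s i := by
  unfold snocE
  rw [OrderEmbedding.coe_ofStrictMono, Fin.snoc_castSucc]

open Classical in
/-- The cone operator with apex `b`; chains not strictly below `b` go to zero. -/
noncomputable def cone (m : ℕ) (b : P) : ChF P m →ₗ[ℤ] ChF P (m + 1) :=
  Finsupp.linearCombination ℤ
    (fun s : Fin m ↪o P => if h : ∀ i, s i < b then Finsupp.single (snocE s b h) (1 : ℤ) else 0)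

open Classical in
theorem cone_single {m : ℕ} (b : P) (s : Fin m ↪o P) (c : ℤ) :
    cone m b (Finsupp.single s c) =
      if h : ∀ i, s i < b then Finsupp.single (snocE s b h) c else 0 := by
  unfold cone
  rw [Finsupp.linearCombination_single]
  split_ifs <;> simp

theorem cone_single_of_lt {m : ℕ} (b : P) (s : Fin m ↪o P) (c : ℤ) (h : ∀ i, s i < b) :
    cone m b (Finsupp.single s c) = Finsupp.single (snocE s b h) c := by
  rw [cone_single, dif_pos h]

theorem cone_single_of_not {m : ℕ} (b : P) (s : Fin m ↪o P) (c : ℤ) (h : ¬ ∀ i, s i < b) :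
    cone m b (Finsupp.single s c) = 0 := by
  rw [cone_single, dif_neg h]

theorem face_lt {m : ℕ} (s : Fin (m + 1) ↪o P) (b : P) (h : ∀ i, s i < b) (j : Fin (m + 1)) :
    ∀ i, face j s i < b := fun i => by
  rw [face_apply]; exact h _

theorem face_snocE_castSucc {m : ℕ} (s : Fin (m + 1) ↪o P) (b : P) (h : ∀ i, s i < b)
    (j : Fin (m + 1)) :
    face j.castSucc (snocE s b h) = snocE (face j s) b (face_lt s b h j) := by
  ext i
  rw [face_apply]
  induction i using Fin.lastCases with
  | last =>
    rw [snocE_last, Fin.succAbove_ne_last_last (Fin.castSucc_lt_last j).ne, snocE_last]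
  | cast i =>
    rw [snocE_castSucc, Fin.castSucc_succAbove_castSucc, snocE_castSucc, face_apply]

theorem face_snocE_last {m : ℕ} (s : Fin m ↪o P) (b : P) (h : ∀ i, s i < b) :
    face (Fin.last m) (snocE s b h) = s := by
  ext i
  rw [face_apply, Fin.succAbove_last, snocE_castSucc]

theorem bdF_cone_single {m : ℕ} (b : P) (s : Fin (m + 1) ↪o P) (hs : ∀ i, s i ≤ b) :
    bdF P (m + 1) (cone (m + 1) b (Finsupp.single s 1)) =
      cone m b (bdF P m (Finsupp.single s 1)) +
        (-1 : ℤ) ^ (m + 1) • Finsupp.single s 1 := by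
  by_cases h : ∀ i, s i < b
  · rw [cone_single_of_lt b s 1 h, bdF_single, Fin.sum_univ_castSucc, bdF_single,
      map_sum]
    congr 1
    · refine Finset.sum_congr rfl fun j _ => ?_
      rw [face_snocE_castSucc, map_smul, cone_single_of_lt _ _ _ (face_lt s b h j)]
      simp
    · rw [face_snocE_last]
      simp
  · rw [cone_single_of_not b s 1 h, map_zero]
    have hlast : s (Fin.last m) = b := by
      by_contra hne
      apply h
      intro i
      exact lt_of_le_of_lt (s.monotone (Fin.le_last i)) (lt_of_le_of_ne (hs _) hne)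
    rw [bdF_single, map_sum, Fin.sum_univ_castSucc]
    have h1 : ∀ j : Fin m, cone m b ((-1 : ℤ) ^ ((j.castSucc : Fin (m+1)) : ℕ) •
        Finsupp.single (face j.castSucc s) 1) = 0 := by
      intro j
      rw [map_smul, cone_single_of_not, smul_zero]
      intro hall
      have hm : 0 < m := Fin.pos j
      obtain ⟨k, rfl⟩ : ∃ k, m = k + 1 := ⟨m - 1, by omega⟩
      have := hall (Fin.last k)
      rw [face_apply, Fin.succAbove_ne_last_last (Fin.castSucc_lt_last j).ne, hlast] at this
      exact lt_irrefl _ this
    rw [Finset.sum_eq_zero (fun j _ => h1 j), zero_add, map_smul]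
    have h3 : ∀ i, face (Fin.last m) s i < b := by
      intro i
      rw [face_apply, Fin.succAbove_last, ← hlast]
      exact s.strictMono (Fin.castSucc_lt_last i)
    rw [cone_single_of_lt b _ 1 h3]
    have h4 : snocE (face (Fin.last m) s) b h3 = s := by
      ext i
      induction i using Fin.lastCases with
      | last => rw [snocE_last, hlast]
      | cast i => rw [snocE_castSucc, face_apply, Fin.succAbove_last]
    rw [h4, Fin.val_last, pow_succ]
    simp

/-- ChF all of whose elements are at most `b`. -/
def Below (m : ℕ) (b : P) : Submodule ℤ (ChF P m) :=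
  Finsupp.supported ℤ ℤ {s : Fin m ↪o P | ∀ i, s i ≤ b}

theorem single_mem_Below {m : ℕ} {b : P} {s : Fin m ↪o P} (hs : ∀ i, s i ≤ b) (c : ℤ) :
    Finsupp.single s c ∈ Below m b :=
  Finsupp.single_mem_supported ℤ c hs

theorem Below_mono {m : ℕ} {a b : P} (h : a ≤ b) : Below m a ≤ Below m b :=
  Finsupp.supported_mono (fun _ hs i => (hs i).trans h)

/-- Induction principle: two linear maps agreeing on the generators of `Below m b` agree on it. -/
theorem eqOn_Below {m : ℕ} {b : P} {M : Type} [AddCommGroup M]
    (f g : ChF P m →ₗ[ℤ] M)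
    (h : ∀ s : Fin m ↪o P, (∀ i, s i ≤ b) → f (Finsupp.single s 1) = g (Finsupp.single s 1)) :
    ∀ c ∈ Below m b, f c = g c := by
  intro c hc
  rw [Below, Finsupp.supported_eq_span_single] at hc
  refine LinearMap.eqOn_span' (f := f) (g := g) ?_ hc
  rintro _ ⟨s, hs, rfl⟩
  exact h s hs

theorem bdF_cone {m : ℕ} (b : P) (c : ChF P (m + 1)) (hc : c ∈ Below (m + 1) b) :
    bdF P (m + 1) (cone (m + 1) b c) =
      cone m b (bdF P m c) + (-1 : ℤ) ^ (m + 1) • c := by
  have := eqOn_Below (b := b) ((bdF P (m + 1)).comp (cone (m + 1) b))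
    ((cone m b).comp (bdF P m) +
      ((-1 : ℤ) ^ (m + 1)) • (LinearMap.id : ChF P (m + 1) →ₗ[ℤ] ChF P (m + 1)))
    (fun s hs => bdF_cone_single b s hs) c hc
  exact this

theorem cone_mem_Below {m : ℕ} (b : P) (c : ChF P m) : cone m b c ∈ Below (m + 1) b := by
  classical
  induction c using Finsupp.induction_linear with
  | zero => simp
  | add f g hf hg => rw [map_add]; exact Submodule.add_mem _ hf hg
  | single s c =>
    rw [cone_single]
    split_ifs with h
    · apply single_mem_Below
      intro i
      induction i using Fin.lastCases with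
      | last => rw [snocE_last]
      | cast i => rw [snocE_castSucc]; exact (h i).le
    · exact Submodule.zero_mem _

/-- The base case: the bdF of a vertex is the empty chain. -/
theorem bdF_cone_zero (b : P) (c : ChF P 0) : bdF P 0 (cone 0 b c) = c := by
  classical
  induction c using Finsupp.induction_linear with
  | zero => simp
  | add f g hf hg => rw [map_add, map_add, hf, hg]
  | single s c =>
    rw [cone_single_of_lt b s c (fun i => i.elim0), bdF_single]
    have : face (Fin.last 0) (snocE s b (fun i => i.elim0)) = s := face_snocE_last _ _ _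
    simp only [Fin.sum_univ_succ, Fin.sum_univ_zero]
    have h0 : (0 : Fin 1) = Fin.last 0 := rfl
    rw [h0, this]
    simp

end Pool.Agent.Lib.MP_8d5739_co
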