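import Pool.Agent.Lib.MP_8d5739_co.Part

/-!
The explicit cycle `z` and the explicit chain `w` with bdF `2 z`.
-/

namespace Pool.Agent.Lib.MP_8d5739_co

/-- The cycle: the join of the boundaries of the paths 0-1-2-3 and 4-5-6-7. -/
def zdata : List (ℤ × List ℕ) :=
  [(1, [1, 11, 41, 51]),
   (-1, [1, 11, 41, 61]),
   (1, [1, 11, 51, 61]),
   (-1, [1, 21, 41, 51]),
   (1, [1, 21, 41, 61]),
   (-1, [1, 21, 51, 61]),
   (1, [11, 21, 41, 51]),
   (-1, [11, 21, 41, 61]),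
   (1, [11, 21, 51, 61])]

/-- A chain whose bdF is twice the cycle. -/
def wdata : List (ℤ × List ℕ) :=
  [(1, [1, 11, 31, 51, 61]),
   (-1, [1, 11, 31, 51, 71]),
   (1, [1, 11, 31, 61, 71]),
   (1, [1, 11, 35, 41, 51]),
   (-1, [1, 11, 35, 41, 61]),
   (1, [1, 11, 35, 51, 61]),
   (1, [1, 11, 41, 51, 71]),
   (-1, [1, 11, 41, 61, 71]),
   (-1, [1, 21, 31, 51, 61]),
   (1, [1, 21, 31, 51, 71]),
   (-1, [1, 21, 31, 61, 71]),
   (-1, [1, 21, 35, 41, 51]),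
   (1, [1, 21, 35, 41, 61]),
   (-1, [1, 21, 35, 51, 61]),
   (-1, [1, 21, 41, 51, 71]),
   (1, [1, 21, 41, 61, 71]),
   (-1, [4, 8, 11, 32, 51]),
   (1, [4, 8, 11, 32, 61]),
   (-1, [4, 8, 11, 51, 61]),
   (-1, [4, 8, 16, 21, 51]),
   (1, [4, 8, 16, 21, 61]),
   (1, [4, 8, 16, 32, 51]),
   (-1, [4, 8, 16, 32, 61]),
   (1, [4, 8, 21, 51, 61]),
   (-1, [4, 11, 17, 32, 51]),
   (1, [4, 11, 17, 32, 61]),
   (-1, [4, 11, 17, 51, 61]),
   (1, [4, 16, 21, 35, 51]),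
   (-1, [4, 16, 21, 35, 61]),
   (1, [4, 16, 22, 32, 51]),
   (-1, [4, 16, 22, 32, 61]),
   (-1, [4, 16, 22, 35, 51]),
   (1, [4, 16, 22, 35, 61]),
   (-1, [4, 17, 22, 32, 51]),
   (1, [4, 17, 22, 32, 61]),
   (-1, [4, 17, 22, 51, 61]),
   (1, [4, 21, 35, 51, 61]),
   (-1, [4, 22, 35, 51, 61]),
   (-1, [5, 11, 17, 31, 51]),
   (1, [5, 11, 17, 31, 61]),
   (1, [5, 11, 17, 43, 51]),
   (-1, [5, 11, 17, 43, 61]),
   (-1, [5, 11, 21, 43, 51]),
   (1, [5, 11, 21, 43, 61]),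
   (-1, [5, 11, 21, 51, 71]),
   (1, [5, 11, 21, 61, 71]),
   (1, [5, 11, 31, 51, 71]),
   (-1, [5, 11, 31, 61, 71]),
   (-1, [5, 17, 21, 31, 51]),
   (1, [5, 17, 21, 31, 61]),
   (1, [5, 17, 21, 43, 51]),
   (-1, [5, 17, 21, 43, 61]),
   (-1, [5, 21, 31, 51, 71]),
   (1, [5, 21, 31, 61, 71]),
   (1, [8, 11, 21, 41, 51]),
   (-1, [8, 11, 21, 41, 61]),
   (1, [8, 11, 21, 43, 51]),
   (-1, [8, 11, 21, 43, 61]),
   (2, [8, 11, 21, 51, 61]),
   (-1, [8, 11, 32, 43, 51]),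
   (1, [8, 11, 32, 43, 61]),
   (-1, [8, 11, 35, 41, 51]),
   (1, [8, 11, 35, 41, 61]),
   (-1, [8, 11, 35, 51, 61]),
   (-1, [8, 16, 21, 41, 51]),
   (1, [8, 16, 21, 41, 61]),
   (-1, [8, 16, 22, 32, 51]),
   (1, [8, 16, 22, 32, 61]),
   (1, [8, 16, 22, 35, 51]),
   (-1, [8, 16, 22, 35, 61]),
   (1, [8, 16, 35, 41, 51]),
   (-1, [8, 16, 35, 41, 61]),
   (-1, [8, 17, 21, 43, 51]),
   (1, [8, 17, 21, 43, 61]),
   (-1, [8, 17, 21, 51, 61]),
   (1, [8, 17, 22, 32, 51]),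
   (-1, [8, 17, 22, 32, 61]),
   (1, [8, 17, 22, 51, 61]),
   (1, [8, 17, 32, 43, 51]),
   (-1, [8, 17, 32, 43, 61]),
   (1, [8, 22, 35, 51, 61]),
   (1, [11, 17, 31, 51, 61]),
   (-1, [11, 17, 32, 43, 51]),
   (1, [11, 17, 32, 43, 61]),
   (1, [11, 21, 41, 51, 71]),
   (-1, [11, 21, 41, 61, 71]),
   (1, [16, 21, 35, 41, 51]),
   (-1, [16, 21, 35, 41, 61]),
   (1, [17, 21, 31, 51, 61])]

/-- Evaluate a formal combination of lists. -/
def evalL {M : Type} [AddCommGroup M] (g : List ℕ → M) (L : List (ℤ × List ℕ)) : M :=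
  (L.map (fun p => p.1 • g p.2)).sum

/-- The signed faces of a weighted list. -/
def faces (p : ℤ × List ℕ) : List (ℤ × List ℕ) :=
  (List.range p.2.length).map (fun j => (p.1 * (-1) ^ j, p.2.eraseIdx j))

/-- Insert a weighted list into a formal combination, merging equal entries. -/
def ins (p : ℤ × List ℕ) : List (ℤ × List ℕ) → List (ℤ × List ℕ)
  | [] => [p]
  | q :: t => if p.2 = q.2 then (if p.1 + q.1 = 0 then t else (p.1 + q.1, q.2) :: t)
      else q :: ins p t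

/-- Normal form of a formal combination. -/
def norm (L : List (ℤ × List ℕ)) : List (ℤ × List ℕ) := L.foldr ins []

section

variable {M : Type} [AddCommGroup M] (g : List ℕ → M)

theorem evalL_cons (p : ℤ × List ℕ) (L : List (ℤ × List ℕ)) :
    evalL g (p :: L) = p.1 • g p.2 + evalL g L := by
  simp [evalL]

theorem evalL_append (L L' : List (ℤ × List ℕ)) :
    evalL g (L ++ L') = evalL g L + evalL g L' := by
  simp [evalL]

theorem evalL_ins (p : ℤ × List ℕ) (L : List (ℤ × List ℕ)) :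
    evalL g (ins p L) = p.1 • g p.2 + evalL g L := by
  induction L with
  | nil => simp [ins, evalL]
  | cons q t ih =>
    unfold ins
    split_ifs with h1 h2
    · rw [evalL_cons, h1, ← add_assoc, ← add_smul, h2, zero_smul, zero_add]
    · rw [evalL_cons, evalL_cons, h1, ← add_assoc, ← add_smul]
    · rw [evalL_cons, evalL_cons, ih]
      abel

theorem evalL_norm (L : List (ℤ × List ℕ)) : evalL g (norm L) = evalL g L := by
  induction L with
  | nil => rfl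
  | cons p t ih =>
    rw [evalL_cons, ← ih]
    exact evalL_ins g p (norm t)

end

theorem norm_eq : norm (wdata.flatMap faces ++ zdata.map (fun p => (-2 * p.1, p.2))) = [] := by
  decide +kernel

theorem norm_z : norm (zdata.flatMap faces) = [] := by
  decide +kernel

theorem w_chk : ∀ p ∈ wdata, p.2.length = 5 ∧ Chk p.2 := by
  decide +kernel

theorem z_chk : ∀ p ∈ zdata, p.2.length = 4 ∧ Chk p.2 := by
  decide +kernel

end Pool.Agent.Lib.MP_8d5739_co
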