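import Mathlib

/-!
Definitions for the order complex homology of the posets of set partitions with bounded block sizes.
-/

namespace Pool.Agent.Lib.MP_8d5739_co

/-- The poset `Π_{n,≤k}`: all set partitions of `Fin n` other than the partition into singletons,
all of whose blocks have at most `k` elements, ordered by refinement (the order of
`Finpartition`). -/
abbrev BPart (n k : ℕ) : Type :=
  {p : Finpartition (Finset.univ : Finset (Fin n)) // p ≠ ⊥ ∧ ∀ B ∈ p.parts, B.card ≤ k}

/-- The free abelian group on the chains `x_0 < x_1 < ... < x_{m-1}` with `m` elements in the
poset `P`, that is, on the `(m-1)`-dimensional simplices of the order complex of `P`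
(`m = 0` is the empty simplex). -/
abbrev Chains (P : Type) [PartialOrder P] (m : ℕ) : Type := FreeAbelianGroup (Fin m ↪o P)

/-- The simplicial boundary map: it sends a chain with `m + 1` elements to the alternating sum of
the chains obtained by deleting the `j`-th element, `j = 0, ..., m`. -/
noncomputable def boundary (P : Type) [PartialOrder P] (m : ℕ) : Chains P (m + 1) →+ Chains P m :=
  FreeAbelianGroup.lift fun s =>
    ∑ j : Fin (m + 1), (-1 : ℤ) ^ (j : ℕ) • FreeAbelianGroup.of ((Fin.succAboveOrderEmb j).trans s)

/-- The reduced integral simplicial homology group of the order complex of `P` in degree `i ≥ 0`: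
cycles modulo boundaries of the augmented chain complex. -/
def ReducedHomology (P : Type) [PartialOrder P] (i : ℕ) : Type :=
  (boundary P i).ker ⧸ (boundary P (i + 1)).range.addSubgroupOf (boundary P i).ker

/-- The quotient group structure. -/
noncomputable instance (P : Type) [PartialOrder P] (i : ℕ) : AddCommGroup (ReducedHomology P i) :=
  QuotientAddGroup.Quotient.addCommGroup _

end Pool.Agent.Lib.MP_8d5739_co
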