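import Pool.Agent.Lib.MP_8d5739_co.Cocycle

/-!
Evaluation of the cocycle on the explicit cycle.
-/

namespace Pool.Agent.Lib.MP_8d5739_co

open Finset

theorem Phi_cone_zero {m : ℕ} (b b' : BPart 9 3) (h : ac b = ac b')
    (c : ChF (BPart 9 3) m) : Phi (m + 2) (cone (m + 1) b (cone m b' c)) = 0 := by
  classical
  induction c using Finsupp.induction_linear with
  | zero => simp
  | add f g hf hg => rw [map_add, map_add, map_add, hf, hg, add_zero]
  | single s c =>
    have hc : (Finsupp.single s c : ChF (BPart 9 3) m) = c • Finsupp.single s 1 := by simp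
    rw [hc, map_smul, map_smul, map_smul]
    by_cases h1 : ∀ i, s i < b'
    · rw [cone_single_of_lt b' s 1 h1]
      by_cases h2 : ∀ i, snocE s b' h1 i < b
      · rw [cone_single_of_lt b _ 1 h2, Phi_single, if_neg, smul_zero]
        intro hall
        have := hall (Fin.last (m + 1)) (Fin.last m).castSucc (Fin.castSucc_lt_last _).ne'
        rw [snocE_last, snocE_castSucc, snocE_last, h] at this
        exact this.1 rfl
      · rw [cone_single_of_not b _ 1 h2, map_zero, smul_zero]
    · rw [cone_single_of_not b' s 1 h1, map_zero, map_zero, smul_zero]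

theorem Dj_symm {c d : ℕ} (h : Dj c d) : Dj d c :=
  ⟨h.1.symm, h.2.2.1.symm, h.2.1.symm, h.2.2.2.symm⟩

theorem Phi_cone {m : ℕ} (b b' : BPart 9 3)
    (h : ∀ x, x ≤ b' → x < b ∧ Dj (ac x) (ac b))
    (c : ChF (BPart 9 3) m) (hc : c ∈ Below m b') : Phi (m + 1) (cone m b c) = Phi m c := by
  classical
  refine eqOn_Below (b := b') ((Phi (m + 1)).comp (cone m b)) (Phi m) ?_ c hc
  intro s hs
  rw [LinearMap.comp_apply]
  have hlt : ∀ i, s i < b := fun i => (h _ (hs i)).1
  rw [cone_single_of_lt b s 1 hlt, Phi_single, Phi_single]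
  have hiff : AllDj (snocE s b hlt) ↔ AllDj s := by
    constructor
    · intro ha i j hij
      have := ha i.castSucc j.castSucc (fun he => hij (Fin.castSucc_injective _ he))
      rwa [snocE_castSucc, snocE_castSucc] at this
    · intro ha i j hij
      induction i using Fin.lastCases with
      | last =>
        induction j using Fin.lastCases with
        | last => exact absurd rfl hij
        | cast j =>
          rw [snocE_last, snocE_castSucc]
          exact Dj_symm (h _ (hs j)).2
      | cast i =>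
        induction j using Fin.lastCases with
        | last =>
          rw [snocE_last, snocE_castSucc]
          exact (h _ (hs i)).2
        | cast j =>
          rw [snocE_castSucc, snocE_castSucc]
          exact ha i j (fun he => hij (by rw [he]))
  simp only [hiff]

/-- The four-matching facet. -/
def mat : List ℕ := [1, 21, 41, 61]

theorem mat_facts : ∀ l ∈ mat.sublists, l ≠ [] → Chk l ∧
    (∀ c < 81, e1 c < e2 c → lf l (e1 c) = lf l (e2 c) → c ∈ l) ∧ (∀ c ∈ l, l.headI ≤ c) := by
  decide +kernel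

theorem mat_dj : ∀ c ∈ mat, ∀ d ∈ mat, c ≠ d → Dj c d := by
  decide +kernel

theorem ac_mem_of_le_top {l : List ℕ} (hC : Chk l) {x : BPart 9 3} (hx : x ≤ top l) :
    ac x < 81 ∧ e1 (ac x) < e2 (ac x) ∧ lf l (e1 (ac x)) = lf l (e2 (ac x)) := by
  refine ⟨(ac_mem x).1, (ac_mem x).2.1, ?_⟩
  have h := ac_mem_part_of_le hx
  rw [top_of_G hC.G] at h
  have h2 : gen l (e1 (ac x)) (e2 (ac x)) := mem_part_ofS.1 h
  exact Chk.gen_le hC.2.2.1 h2

theorem ac_mat {l : List ℕ} (hl : l.Sublist mat) (hne : l ≠ []) {x : BPart 9 3}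
    (hx : x ≤ top l) : ac x ∈ l := by
  obtain ⟨hC, h2, _⟩ := mat_facts l (List.mem_sublists.2 hl) hne
  obtain ⟨a1, a2, a3⟩ := ac_mem_of_le_top hC hx
  exact h2 _ a1 a2 a3

theorem mat_lt : ∀ c ∈ mat, c < 81 ∧ e1 c < e2 c := by decide +kernel

theorem ac_top_cons {c : ℕ} {l : List ℕ} (hl : (c :: l).Sublist mat) :
    ac (top (c :: l)) = c := by
  obtain ⟨hC, _, h3⟩ := mat_facts (c :: l) (List.mem_sublists.2 hl) (List.cons_ne_nil _ _)
  apply le_antisymm
  · apply Nat.sInf_le
    have hc : c ∈ mat := hl.subset List.mem_cons_self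
    refine ⟨(mat_lt c hc).1, (mat_lt c hc).2, ?_⟩
    rw [top_of_G hC.G]
    exact mem_part_ofS.2 (gen_rel List.mem_cons_self)
  · exact h3 _ (ac_mat hl (List.cons_ne_nil _ _) le_rfl)

theorem Phi_sdv_mat : ∀ (m : ℕ) (l : List ℕ), l.length = m + 1 → l.Sublist mat →
    Phi (m + 1) (sdv top (m + 1) l) = 1 := by
  intro m
  induction m with
  | zero =>
    intro l _ _
    classical
    rw [sdv_succ]
    simp only [Finset.sum_range_one, pow_zero, one_smul, zero_add]
    rw [show sdv top 0 (l.eraseIdx 0) = Finsupp.single (emptyChain (BPart 9 3)) 1 from rfl,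
      cone_single_of_lt _ _ _ (fun i => i.elim0), Phi_single, if_pos]
    intro i j hij
    exact absurd (Fin.ext (by have := i.2; have := j.2; omega)) hij
  | succ m ih =>
    intro l hl hs
    obtain ⟨c, l', rfl⟩ : ∃ c l', l = c :: l' := by
      cases l with
      | nil => simp at hl
      | cons c l' => exact ⟨c, l', rfl⟩
    have hl' : l'.length = m + 1 := by simpa using hl
    have hs' : l'.Sublist mat := (List.sublist_cons_self c l').trans hs
    have hne' : l' ≠ [] := by
      intro h0; rw [h0] at hl'; simp at hl'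
    rw [sdv_succ, Finset.sum_range_succ', map_smul, map_add, map_add, map_sum, map_sum]
    have hz : ∀ j ∈ Finset.range (m + 1), Phi (m + 2) (cone (m + 1) (top (c :: l'))
        ((-1 : ℤ) ^ (j + 1) • sdv top (m + 1) ((c :: l').eraseIdx (j + 1)))) = 0 := by
      intro j _
      rw [map_smul, map_smul, List.eraseIdx_cons_succ, sdv_succ, map_smul, map_smul,
        Phi_cone_zero, smul_zero, smul_zero]
      rw [ac_top_cons hs, ac_top_cons]
      exact ((List.eraseIdx_sublist l' j).cons_cons c).trans hs
    rw [Finset.sum_eq_zero hz, zero_add, pow_zero, one_smul, List.eraseIdx_cons_zero]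
    have hkey : Phi (m + 2) (cone (m + 1) (top (c :: l')) (sdv top (m + 1) l')) =
        Phi (m + 1) (sdv top (m + 1) l') := by
      refine Phi_cone _ (top l') ?_ _ (sdv_mem_Below _ _ _)
      intro x hx
      have hG := (mat_facts _ (List.mem_sublists.2 hs) (List.cons_ne_nil _ _)).1.G
      have hxm := ac_mat hs' hne' hx
      have hcn : c ∉ l' := by
        have hnd : (c :: l').Nodup := hs.nodup (by decide)
        exact (List.nodup_cons.1 hnd).1
      have hle : top l' ≤ top (c :: l') := top_le_top hG (List.subset_cons_self c l') hne'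
      rw [ac_top_cons hs]
      refine ⟨lt_of_le_of_ne (hx.trans hle) ?_, ?_⟩
      · intro he
        rw [he, ac_top_cons hs] at hxm
        exact hcn hxm
      · exact mat_dj _ (hs'.subset hxm) _ (hs.subset List.mem_cons_self)
          (fun he => hcn (by rw [← he]; exact hxm))
    rw [hkey, ih l' hl' hs']
    rcases neg_one_pow_eq_or ℤ (m + 1) with h | h
    · rw [h, one_smul]
    · rw [h, neg_smul, one_smul]; rfl

/-- Codes of pairs inside the components of a list. -/
def rel (l : List ℕ) : List ℕ :=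
  (List.range 81).filter (fun c => e1 c < e2 c ∧ lf l (e1 c) = lf l (e2 c))

theorem other_facts : ∀ p ∈ zdata, p.2 ≠ mat → ∀ a ∈ rel p.2, ∀ b ∈ rel p.2, Dj a b →
    ∀ c ∈ rel p.2, Dj a c → Dj b c → ∀ d ∈ rel p.2, Dj a d → Dj b d → Dj c d → False := by
  decide +kernel

theorem Phi_sdv_other : ∀ p ∈ zdata, p.2 ≠ mat → Phi 4 (sdv top 4 p.2) = 0 := by
  intro p hp hne
  classical
  have hC := (z_chk p hp).2
  refine eqOn_Below (b := top p.2) (Phi 4) 0 ?_ _ (sdv_mem_Below _ _ _)
  intro s hs
  rw [Phi_single, if_neg]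
  · rfl
  · intro hall
    have hr : ∀ i, ac (s i) ∈ rel p.2 := by
      intro i
      obtain ⟨a1, a2, a3⟩ := ac_mem_of_le_top hC (hs i)
      rw [rel, List.mem_filter]
      exact ⟨List.mem_range.2 a1, by simpa using ⟨a2, a3⟩⟩
    exact other_facts p hp hne _ (hr 0) _ (hr 1) (hall 0 1 (by decide)) _ (hr 2)
      (hall 0 2 (by decide)) (hall 1 2 (by decide)) _ (hr 3) (hall 0 3 (by decide))
      (hall 1 3 (by decide)) (hall 2 3 (by decide))

end Pool.Agent.Lib.MP_8d5739_co
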