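import Pool.Agent.Lib.MP_8d5739_co.Defs

/-!
The same chain complex in terms of finitely supported functions, used in the proofs.
-/

namespace Pool.Agent.Lib.MP_8d5739_co

/-- Chains as finitely supported functions. -/
abbrev ChF (P : Type) [PartialOrder P] (m : ℕ) : Type := (Fin m ↪o P) →₀ ℤ

/-- The boundary in terms of finitely supported functions. -/
noncomputable def bdF (P : Type) [PartialOrder P] (m : ℕ) :
    ChF P (m + 1) →ₗ[ℤ] ChF P m :=
  ∑ j : Fin (m + 1), (-1 : ℤ) ^ (j : ℕ) •
    Finsupp.lmapDomain ℤ ℤ (fun s : Fin (m + 1) ↪o P => (Fin.succAboveOrderEmb j).trans s)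

theorem toFinsupp_boundary {P : Type} [PartialOrder P] (m : ℕ) (c : Chains P (m + 1)) :
    FreeAbelianGroup.toFinsupp (boundary P m c) = bdF P m (FreeAbelianGroup.toFinsupp c) := by
  have h : (FreeAbelianGroup.toFinsupp.comp (boundary P m)) =
      ((bdF P m).toAddMonoidHom.comp FreeAbelianGroup.toFinsupp) := by
    apply FreeAbelianGroup.lift_ext
    intro s
    simp [boundary, bdF, LinearMap.sum_apply, LinearMap.smul_apply, Finsupp.lmapDomain_apply,
      Finsupp.mapDomain_single, FreeAbelianGroup.lift_apply_of, map_sum, map_zsmul]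
  exact DFunLike.congr_fun h c

theorem toFinsupp_injective {X : Type} :
    Function.Injective (FreeAbelianGroup.toFinsupp : FreeAbelianGroup X →+ X →₀ ℤ) := by
  intro a b h
  rw [← Finsupp.toFreeAbelianGroup_toFinsupp a, h, Finsupp.toFreeAbelianGroup_toFinsupp]

end Pool.Agent.Lib.MP_8d5739_co
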