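import Pool.Agent.Lib.MP_8d5739_co.Eval

/-!
A class of order two in the third reduced homology group of the order complex of `Π_{9,≤3}`.
-/

namespace Pool.Agent.Lib.MP_8d5739_co

theorem sum_map_range {M : Type} [AddCommMonoid M] (f : ℕ → M) (n : ℕ) :
    ((List.range n).map f).sum = ∑ j ∈ Finset.range n, f j := by
  induction n with
  | zero => simp
  | succ n ih => rw [List.range_succ, List.map_append, List.sum_append, ih,
      Finset.sum_range_succ]; simp

theorem evalL_faces {M : Type} [AddCommGroup M] (g : List ℕ → M) (p : ℤ × List ℕ) :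
    evalL g (faces p) =
      p.1 • ∑ j ∈ Finset.range p.2.length, (-1 : ℤ) ^ j • g (p.2.eraseIdx j) := by
  unfold evalL faces
  rw [List.map_map, ← sum_map_range, List.smul_sum, List.map_map]
  congr 1
  apply List.map_congr_left
  intro j _
  simp only [Function.comp_apply, mul_smul]

theorem bdF_evalL (m : ℕ) (L : List (ℤ × List ℕ))
    (hL : ∀ p ∈ L, p.2.length = m + 1 ∧ Chk p.2) :
    bdF (BPart 9 3) m (evalL (sdv top (m + 1)) L) =
      evalL (sdv top m) (L.flatMap faces) := by
  induction L with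
  | nil => simp [evalL]
  | cons p t ih =>
    rw [evalL_cons, map_add, map_smul, List.flatMap_cons, evalL_append,
      ih (fun q hq => hL q (List.mem_cons_of_mem _ hq)), evalL_faces]
    obtain ⟨h1, h2⟩ := hL p List.mem_cons_self
    rw [bdF_sdv top G G_eraseIdx m p.2 h1 h2.G, h1]

/-- The cycle. -/
noncomputable def zc : ChF (BPart 9 3) 4 := evalL (sdv top 4) zdata

/-- The chain with bdF twice the cycle. -/
noncomputable def wc : ChF (BPart 9 3) 5 := evalL (sdv top 5) wdata

theorem bdF_zc : bdF (BPart 9 3) 3 zc = 0 := by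
  unfold zc
  rw [bdF_evalL 3 zdata z_chk, ← evalL_norm, norm_z]
  rfl

theorem evalL_smul {M : Type} [AddCommGroup M] (g : List ℕ → M) (a : ℤ)
    (L : List (ℤ × List ℕ)) : evalL g (L.map (fun p => (a * p.1, p.2))) = a • evalL g L := by
  induction L with
  | nil => simp [evalL]
  | cons p t ih => rw [List.map_cons, evalL_cons, evalL_cons, ih, smul_add, mul_smul]

theorem bdF_wc : bdF (BPart 9 3) 4 wc = (2 : ℤ) • zc := by
  unfold wc zc
  rw [bdF_evalL 4 wdata w_chk]
  have h := evalL_norm (sdv top 4) (wdata.flatMap faces ++ zdata.map (fun p => (-2 * p.1, p.2)))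
  rw [norm_eq, evalL_append, evalL_smul] at h
  have h2 : evalL (sdv top 4) [] = 0 := rfl
  rw [h2] at h
  rw [neg_smul, ← sub_eq_add_neg] at h
  exact (sub_eq_zero.1 h.symm)

theorem Phi_evalL (L : List (ℤ × List ℕ)) (hL : ∀ p ∈ L, p ∈ zdata) :
    Phi 4 (evalL (sdv top 4) L) =
      (L.map (fun p => p.1 • (if p.2 = mat then (1 : ZMod 2) else 0))).sum := by
  induction L with
  | nil => simp [evalL]
  | cons p t ih =>
    rw [evalL_cons, map_add, map_smul, List.map_cons, List.sum_cons,
      ih (fun q hq => hL q (List.mem_cons_of_mem _ hq))]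
    congr 2
    by_cases h : p.2 = mat
    · rw [if_pos h, h]
      exact Phi_sdv_mat 3 mat rfl (List.Sublist.refl _)
    · rw [if_neg h]
      exact Phi_sdv_other p (hL p List.mem_cons_self) h

theorem Phi_zc : Phi 4 zc = 1 := by
  unfold zc
  rw [Phi_evalL zdata (fun _ h => h)]
  decide

/-- There is an element of order two. -/
theorem main : ∃ c : ReducedHomology (BPart 9 3) 3, addOrderOf c = 2 := by
  have hz : Finsupp.toFreeAbelianGroup zc ∈ (boundary (BPart 9 3) 3).ker := by
    rw [AddMonoidHom.mem_ker]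
    apply toFinsupp_injective
    rw [toFinsupp_boundary, FreeAbelianGroup.toFinsupp_toFreeAbelianGroup, bdF_zc, map_zero]
  suffices h : ∃ c : (boundary (BPart 9 3) 3).ker ⧸
      (boundary (BPart 9 3) 4).range.addSubgroupOf (boundary (BPart 9 3) 3).ker,
      addOrderOf c = 2 from h
  refine ⟨QuotientAddGroup.mk ⟨Finsupp.toFreeAbelianGroup zc, hz⟩, ?_⟩
  have : Fact (Nat.Prime 2) := ⟨Nat.prime_two⟩
  apply addOrderOf_eq_prime
  · rw [← QuotientAddGroup.mk_nsmul, QuotientAddGroup.eq_zero_iff, AddSubgroup.mem_addSubgroupOf]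
    refine ⟨Finsupp.toFreeAbelianGroup wc, ?_⟩
    apply toFinsupp_injective
    rw [toFinsupp_boundary, FreeAbelianGroup.toFinsupp_toFreeAbelianGroup, bdF_wc]
    simp [two_smul]
  · intro h0
    rw [QuotientAddGroup.eq_zero_iff, AddSubgroup.mem_addSubgroupOf] at h0
    obtain ⟨u, hu⟩ := h0
    have h1 := Phi_bdF (FreeAbelianGroup.toFinsupp u)
    rw [← toFinsupp_boundary] at h1
    have h2 : boundary (BPart 9 3) 4 u = Finsupp.toFreeAbelianGroup zc := hu
    rw [h2, FreeAbelianGroup.toFinsupp_toFreeAbelianGroup, Phi_zc] at h1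
    exact one_ne_zero h1

end Pool.Agent.Lib.MP_8d5739_co
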