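import Pool.Agent.Lib.MP_8d5739_co.Sdv

/-!
Partitions of a nine element set generated by lists of pairs.
A pair `{i, j}` with `i < j` is coded by the number `9 * i + j`.
-/

namespace Pool.Agent.Lib.MP_8d5739_co

open Finset

/-- First element of the coded pair. -/
def e1 (c : ℕ) : Fin 9 := ⟨c / 9 % 9, Nat.mod_lt _ (by norm_num)⟩

/-- Second element of the coded pair. -/
def e2 (c : ℕ) : Fin 9 := ⟨c % 9, Nat.mod_lt _ (by norm_num)⟩

/-- The equivalence relation generated by a list of coded pairs. -/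
def gen (l : List ℕ) : Setoid (Fin 9) := sInf {r | ∀ c ∈ l, r (e1 c) (e2 c)}

theorem gen_rel {l : List ℕ} {c : ℕ} (h : c ∈ l) : gen l (e1 c) (e2 c) := by
  unfold gen
  rw [Setoid.sInf_def, sInf_apply]
  simp only [iInf_Prop_eq, iInf_apply]
  rintro ⟨_, r, hr, rfl⟩
  exact hr c h

theorem gen_le {l : List ℕ} {r : Setoid (Fin 9)} (h : ∀ c ∈ l, r (e1 c) (e2 c)) : gen l ≤ r :=
  sInf_le h

theorem gen_mono {l l' : List ℕ} (h : l ⊆ l') : gen l ≤ gen l' :=
  gen_le (fun _ hc => gen_rel (h hc))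

/-- The partition given by an equivalence relation. -/
noncomputable def ofS (s : Setoid (Fin 9)) : Finpartition (univ : Finset (Fin 9)) := by
  classical exact Finpartition.ofSetoid s

theorem mem_part_ofS {s : Setoid (Fin 9)} {i j : Fin 9} : j ∈ (ofS s).part i ↔ s i j := by
  unfold ofS
  classical exact Finpartition.mem_part_ofSetoid_iff_rel

theorem le_iff_part {n : ℕ} (p q : Finpartition (univ : Finset (Fin n))) :
    p ≤ q ↔ ∀ i, p.part i ⊆ q.part i := by
  constructor
  · intro h i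
    obtain ⟨c, hc, hle⟩ := h (p.part_mem.2 (mem_univ i))
    have hi : i ∈ c := hle (p.mem_part (mem_univ i))
    rw [q.part_eq_of_mem hc hi]
    exact hle
  · intro h b hb
    obtain ⟨a, ha⟩ := p.nonempty_of_mem_parts hb
    refine ⟨q.part a, q.part_mem.2 (mem_univ a), ?_⟩
    rw [← p.part_eq_of_mem hb ha]
    exact h a

theorem ofS_mono {s t : Setoid (Fin 9)} (h : s ≤ t) : ofS s ≤ ofS t := by
  rw [le_iff_part]
  intro i j hj
  rw [mem_part_ofS] at hj ⊢
  exact h hj

/-- Admissible lists of coded pairs. -/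
def G (l : List ℕ) : Prop :=
  l ≠ [] ∧ (∀ c ∈ l, e1 c ≠ e2 c) ∧ ∀ i, ((ofS (gen l)).part i).card ≤ 3

theorem G_of_subset {l l' : List ℕ} (h : G l) (hs : l' ⊆ l) (hne : l' ≠ []) : G l' := by
  refine ⟨hne, fun c hc => h.2.1 c (hs hc), fun i => ?_⟩
  refine le_trans (card_le_card ?_) (h.2.2 i)
  intro j hj
  rw [mem_part_ofS] at hj ⊢
  exact gen_mono hs hj

theorem part_bot {n : ℕ} (i : Fin n) : (⊥ : Finpartition (univ : Finset (Fin n))).part i = {i} := by
  have h := (⊥ : Finpartition (univ : Finset (Fin n))).part_mem.2 (mem_univ i)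
  rw [Finpartition.parts_bot, mem_map] at h
  obtain ⟨a, _, ha⟩ := h
  have hi : i ∈ (⊥ : Finpartition (univ : Finset (Fin n))).part i :=
    Finpartition.mem_part _ (mem_univ i)
  rw [← ha] at hi ⊢
  simp only [Function.Embedding.coeFn_mk, mem_singleton] at hi ⊢
  rw [hi]

theorem ofS_gen_ne_bot {l : List ℕ} (h : G l) : ofS (gen l) ≠ ⊥ := by
  intro hb
  obtain ⟨c, hc⟩ := List.exists_mem_of_ne_nil l h.1
  have h1 : e2 c ∈ (ofS (gen l)).part (e1 c) := mem_part_ofS.2 (gen_rel hc)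
  rw [hb, part_bot, mem_singleton] at h1
  exact h.2.1 c hc h1.symm

theorem G.mem {l : List ℕ} (h : G l) :
    ofS (gen l) ≠ ⊥ ∧ ∀ B ∈ (ofS (gen l)).parts, B.card ≤ 3 := by
  refine ⟨ofS_gen_ne_bot h, fun B hB => ?_⟩
  obtain ⟨a, ha⟩ := (ofS (gen l)).nonempty_of_mem_parts hB
  rw [← (ofS (gen l)).part_eq_of_mem hB ha]
  exact h.2.2 a

/-! ### A decidable criterion for admissibility -/

/-- Component labels computed from a list of coded pairs. -/
def labels (l : List ℕ) : List ℕ :=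
  l.foldl (fun L c => L.map (fun y => if y = L.getD (e2 c) 0 then L.getD (e1 c) 0 else y))
    [0, 1, 2, 3, 4, 5, 6, 7, 8]

/-- The label function. -/
def lf (l : List ℕ) (i : Fin 9) : ℕ := (labels l).getD i 0

/-- The decidable criterion. -/
def Chk (l : List ℕ) : Prop :=
  l ≠ [] ∧ (∀ c ∈ l, e1 c ≠ e2 c) ∧ (∀ c ∈ l, lf l (e1 c) = lf l (e2 c)) ∧
    ∀ i : Fin 9, (univ.filter (fun j : Fin 9 => lf l i = lf l j)).card ≤ 3

instance (l : List ℕ) : Decidable (Chk l) := by unfold Chk; infer_instance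

theorem Chk.gen_le {l : List ℕ} (h : ∀ c ∈ l, lf l (e1 c) = lf l (e2 c)) {i j : Fin 9}
    (hij : gen l i j) : lf l i = lf l j := by
  have : gen l ≤ Setoid.ker (lf l) := MP_8d5739_co.gen_le (fun c hc => h c hc)
  exact this hij

theorem Chk.G {l : List ℕ} (h : Chk l) : G l := by
  refine ⟨h.1, h.2.1, fun i => ?_⟩
  refine le_trans (card_le_card ?_) (h.2.2.2 i)
  intro j hj
  rw [mem_part_ofS] at hj
  rw [mem_filter]
  exact ⟨mem_univ _, Chk.gen_le h.2.2.1 hj⟩

theorem G_one : G [1] := Chk.G (by decide)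

instance : Nonempty (BPart 9 3) := ⟨⟨_, G_one.mem⟩⟩

open Classical in
/-- The element of the poset generated by a list of coded pairs. -/
noncomputable def top (l : List ℕ) : BPart 9 3 :=
  if h : G l then ⟨ofS (gen l), h.mem⟩ else Classical.arbitrary _

theorem top_of_G {l : List ℕ} (h : G l) : top l = ⟨ofS (gen l), h.mem⟩ := by
  unfold top; rw [dif_pos h]

theorem top_le_top {l l' : List ℕ} (h : G l) (hs : l' ⊆ l) (hne : l' ≠ []) : top l' ≤ top l := by
  rw [top_of_G h, top_of_G (G_of_subset h hs hne)]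
  exact ofS_mono (gen_mono hs)

theorem G_eraseIdx (l : List ℕ) (h : G l) (hl : 2 ≤ l.length) (j : ℕ) (hj : j < l.length) :
    G (l.eraseIdx j) ∧ top (l.eraseIdx j) ≤ top l := by
  have hne : l.eraseIdx j ≠ [] := by
    intro h0
    have := List.length_eraseIdx_of_lt hj
    rw [h0] at this
    simp at this
    omega
  have hs : l.eraseIdx j ⊆ l := (List.eraseIdx_sublist l j).subset
  exact ⟨G_of_subset h hs hne, top_le_top h hs hne⟩

end Pool.Agent.Lib.MP_8d5739_co
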