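import Pool.Agent.Lib.MP_8d5739_co.Cone

/-!
Sanity check for the definitions (not used in the main proof): the boundary maps form a complex.
-/

namespace Pool.Agent.Lib.MP_8d5739_co

variable {P : Type} [PartialOrder P]

theorem face_face {m : ℕ} (s : Fin (m + 2) ↪o P) (i : Fin (m + 2)) (j : Fin (m + 1)) :
    face (j.predAbove i) (face (i.succAbove j) s) = face j (face i s) := by
  ext k
  rw [face_apply, face_apply, face_apply, face_apply, Fin.succAbove_succAbove_succAbove_predAbove]

theorem bdF_bdF (m : ℕ) (c : ChF P (m + 2)) : bdF P m (bdF P (m + 1) c) = 0 := by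
  classical
  induction c using Finsupp.induction_linear with
  | zero => simp
  | add f g hf hg => rw [map_add, map_add, hf, hg, add_zero]
  | single s c =>
    rw [bdF_single, map_sum]
    simp_rw [map_smul, bdF_single, Finset.smul_sum, smul_smul, ← pow_add]
    rw [← Finset.sum_product']
    refine Finset.sum_involution (fun p _ => (p.1.succAbove p.2, p.2.predAbove p.1)) ?_ ?_ ?_ ?_
    · rintro ⟨i, j⟩ _
      dsimp only
      rw [face_face, Fin.neg_one_pow_succAbove_add_predAbove, neg_smul, add_neg_cancel]
    · rintro ⟨i, j⟩ _ _ he
      simp only [Prod.mk.injEq] at he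
      exact Fin.succAbove_ne i j he.1
    · intro p _
      simp
    · rintro ⟨i, j⟩ _
      dsimp only
      rw [Fin.succAbove_succAbove_predAbove, Fin.predAbove_predAbove_succAbove]

/-- The composite of two consecutive boundary maps is zero. -/
theorem boundary_boundary (m : ℕ) (c : Chains P (m + 2)) :
    boundary P m (boundary P (m + 1) c) = 0 := by
  apply toFinsupp_injective
  rw [toFinsupp_boundary, toFinsupp_boundary, bdF_bdF, map_zero]

end Pool.Agent.Lib.MP_8d5739_co
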