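import Pool.Agent.Lib.MP_8d5739_co.Cone

/-!
The subdivision map from lists of atoms to chains of a poset, and its behaviour under the bdF.
-/

namespace Pool.Agent.Lib.MP_8d5739_co

theorem eraseIdx_comm {α : Type} (l : List α) (i j : ℕ) (h : j ≤ i) :
    (l.eraseIdx j).eraseIdx i = (l.eraseIdx (i + 1)).eraseIdx j := by
  induction l generalizing i j with
  | nil => simp
  | cons a t ih =>
    cases j with
    | zero => simp
    | succ j =>
      cases i with
      | zero => omega
      | succ i =>
        simp only [List.eraseIdx_cons_succ]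
        rw [ih i j (by omega)]

/-- The square of the alternating sum of faces vanishes. -/
theorem sum_faces_faces {α M : Type} [AddCommGroup M] (g : List α → M) (l : List α) (m : ℕ) :
    ∑ j ∈ Finset.range (m + 2), (-1 : ℤ) ^ j •
      ∑ i ∈ Finset.range (m + 1), (-1 : ℤ) ^ i • g ((l.eraseIdx j).eraseIdx i) = 0 := by
  simp_rw [Finset.smul_sum, smul_smul, ← pow_add]
  rw [← Finset.sum_product']
  refine Finset.sum_involution
    (fun p _ => if p.2 < p.1 then (p.2, p.1 - 1) else (p.2 + 1, p.1)) ?_ ?_ ?_ ?_
  · rintro ⟨j, i⟩ hp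
    simp only [Finset.mem_product, Finset.mem_range] at hp
    dsimp only
    by_cases h : i < j
    · rw [if_pos h]
      dsimp only
      obtain ⟨k, rfl⟩ : ∃ k, j = k + 1 := ⟨j - 1, by omega⟩
      rw [Nat.add_sub_cancel, ← eraseIdx_comm l k i (by omega)]
      rw [show k + 1 + i = (i + k) + 1 by ring, pow_succ]
      simp
    · rw [if_neg h]
      dsimp only
      rw [eraseIdx_comm l i j (by omega)]
      rw [show i + 1 + j = (j + i) + 1 by ring, pow_succ]
      simp
  · rintro ⟨j, i⟩ hp _
    dsimp only
    by_cases h : i < j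
    · rw [if_pos h]
      intro he
      simp only [Prod.mk.injEq] at he
      omega
    · rw [if_neg h]
      intro he
      simp only [Prod.mk.injEq] at he
      omega
  · rintro ⟨j, i⟩ hp
    simp only [Finset.mem_product, Finset.mem_range] at hp ⊢
    by_cases h : i < j
    · rw [if_pos h]
      dsimp only
      omega
    · rw [if_neg h]
      dsimp only
      omega
  · rintro ⟨j, i⟩ hp
    dsimp only
    by_cases h : i < j
    · rw [if_pos h]
      dsimp only
      rw [if_neg (by omega)]
      exact Prod.ext (by dsimp only; omega) rfl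
    · rw [if_neg h]
      dsimp only
      rw [if_pos (by omega)]
      exact Prod.ext rfl (by dsimp only; omega)

variable {P : Type} [PartialOrder P] {α : Type}

/-- The empty chain. -/
def emptyChain (P : Type) [PartialOrder P] : Fin 0 ↪o P := OrderEmbedding.ofIsEmpty

/-- The subdivision map: the simplex spanned by a list of `m` atoms is sent to the signed sum of
its flags, read in `P` through the map `top`. -/
noncomputable def sdv (top : List α → P) : (m : ℕ) → List α → ChF P m
  | 0, _ => Finsupp.single (emptyChain P) 1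
  | m + 1, l => (-1 : ℤ) ^ m •
      cone m (top l) (∑ j ∈ Finset.range (m + 1), (-1 : ℤ) ^ j • sdv top m (l.eraseIdx j))

theorem sdv_succ (top : List α → P) (m : ℕ) (l : List α) :
    sdv top (m + 1) l = (-1 : ℤ) ^ m •
      cone m (top l) (∑ j ∈ Finset.range (m + 1), (-1 : ℤ) ^ j • sdv top m (l.eraseIdx j)) := rfl

theorem sdv_mem_Below (top : List α → P) (m : ℕ) (l : List α) :
    sdv top (m + 1) l ∈ Below (m + 1) (top l) := by
  rw [sdv_succ]
  exact Submodule.smul_mem _ _ (cone_mem_Below _ _)

/-- The bdF of a subdivided simplex is the subdivision of its bdF. -/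
theorem bdF_sdv (top : List α → P) (G : List α → Prop)
    (hG : ∀ l, G l → 2 ≤ l.length → ∀ j, j < l.length →
      G (l.eraseIdx j) ∧ top (l.eraseIdx j) ≤ top l) :
    ∀ (m : ℕ) (l : List α), l.length = m + 1 → G l →
      bdF P m (sdv top (m + 1) l) =
        ∑ j ∈ Finset.range (m + 1), (-1 : ℤ) ^ j • sdv top m (l.eraseIdx j) := by
  intro m
  induction m with
  | zero =>
    intro l _ _
    rw [sdv_succ, pow_zero, one_smul, bdF_cone_zero]
  | succ m ih =>
    intro l hl hGl
    have hmem : (∑ j ∈ Finset.range (m + 2), (-1 : ℤ) ^ j • sdv top (m + 1) (l.eraseIdx j)) ∈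
        Below (m + 1) (top l) := by
      refine Submodule.sum_mem _ fun j hj => Submodule.smul_mem _ _ ?_
      have hj' : j < l.length := by
        rw [hl]; exact Finset.mem_range.1 hj
      exact Below_mono (hG l hGl (by omega) j hj').2 (sdv_mem_Below _ _ _)
    rw [sdv_succ, map_smul, bdF_cone _ _ hmem]
    have hz : bdF P m (∑ j ∈ Finset.range (m + 2),
        (-1 : ℤ) ^ j • sdv top (m + 1) (l.eraseIdx j)) = 0 := by
      rw [map_sum, ← sum_faces_faces (sdv top m) l m]
      refine Finset.sum_congr rfl fun j hj => ?_
      have hj' : j < l.length := by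
        rw [hl]; exact Finset.mem_range.1 hj
      rw [map_smul, ih (l.eraseIdx j) ?_ (hG l hGl (by omega) j hj').1]
      rw [List.length_eraseIdx_of_lt hj', hl]
      rfl
    rw [hz, map_zero, zero_add, smul_smul, ← pow_add]
    have : (-1 : ℤ) ^ (m + 1 + (m + 1)) = 1 := by
      rw [← two_mul, pow_mul]; simp
    rw [this, one_smul]

end Pool.Agent.Lib.MP_8d5739_co
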